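import Pool.Agent.H82.NTC.Pot

/-!
# Board `ntc`, row PWL (helper25): the potential of the men for the women of kind `L`
-/

set_option autoImplicit false

namespace Pool.NTC

open Pool.NET

theorem pwl_row {S x y : ℤ} (hS : 0 < S) :
    (S * y + S ≤ S * x) ∨ S * x = S * y ∨ (S * x + S ≤ S * y) := by
  rcases lt_trichotomy x y with h | h | h
  · right; right
    have : S * (x + 1) ≤ S * y := mul_le_mul_of_nonneg_left (by omega) hS.le
    linarith [mul_add S x 1]
  · right; left; rw [h]
  · left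
    have : S * (y + 1) ≤ S * x := mul_le_mul_of_nonneg_left (by omega) hS.le
    linarith [mul_add S y 1]

theorem pwl_thm : PWk Ke.L := by
  intro p e g e' g' h u hp hp' hR tt htt v a s hs hs' hlt
  obtain ⟨w, k⟩ := a
  have hpv : pv2 h u (v, Ke.L) = (v, Ke.NW) := by simp only [pv2]
  rw [hpv] at hlt ⊢
  have ht := htt (v, Ke.NW)
  set τ := tt (v, Ke.NW) with hτ
  obtain ⟨q0, gq, gW, We, eM, MS⟩ := hp
  obtain ⟨-, gq', gW', We', eM', -⟩ := hp'
  have hS : 0 < p.S := by omega
  have hcmp := pwl_row (x := w.2) (y := v.2) hS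
  simp only [prW] at hlt
  unfold Rel at hR
  cases k <;> simp only [fy, lvW, sgW] at hlt ⊢ <;>
    rcases abs_cases (4 * (p.S * v.2 + e + p.q) + 1 - 4 * (p.S * v.2 + e + τ)) with h1 | h1 <;>
    rcases hR with hR | hR | hR <;> rcases hcmp with hc | hc | hc <;>
    rw [abs_lt] at hlt <;> omega

end Pool.NTC
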